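import Pool.Agent.KDS.StmtsB
import Pool.Agent.Helper44_SZT.FIN

set_option autoImplicit false

/-! Squad KDS, row KSF: assembly of the theorem. -/

namespace Pool.Agent.KDS.H71

open Polynomial NumberField H58Q Pool.Agent.SZT Pool.Agent.KDT Pool.Agent.KDS

section Homog

variable {K : Type} [Field K]

theorem dup_smul (f : K[X]) (c : K) (u : Fin 4 → K) : dup f (c • u) = c ^ 4 • dup f u := by
  have h0 : dup0 f (c • u) = c ^ 4 * dup0 f u := by
    simp only [dup0, Pi.smul_apply, smul_eq_mul]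
    ring
  have h1 : dup1 f (c • u) = c ^ 4 * dup1 f u := by
    simp only [dup1, Pi.smul_apply, smul_eq_mul]
    ring
  have h2 : dup2 f (c • u) = c ^ 4 * dup2 f u := by
    simp only [dup2, Pi.smul_apply, smul_eq_mul]
    ring
  have h3 : dup3 f (c • u) = c ^ 4 * dup3 f u := by
    simp only [dup3, Pi.smul_apply, smul_eq_mul]
    ring
  funext l
  fin_cases l
  · show dup0 f (c • u) = c ^ 4 * dup0 f u
    exact h0
  · show dup1 f (c • u) = c ^ 4 * dup1 f u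
    exact h1
  · show dup2 f (c • u) = c ^ 4 * dup2 f u
    exact h2
  · show dup3 f (c • u) = c ^ 4 * dup3 f u
    exact h3

theorem dpw_smul (f : K[X]) (a : ℕ) (c : K) (u : Fin 4 → K) :
    dpw f a (c • u) = c ^ 4 ^ a • dpw f a u := by
  induction a generalizing c u with
  | zero => simp [dpw]
  | succ a ih =>
    show dpw f a (dup f (c • u)) = c ^ 4 ^ (a + 1) • dpw f a (dup f u)
    rw [dup_smul, ih, ← pow_mul]
    congr 2
    rw [pow_succ]
    ring

theorem mon_smul (e : Ex 2) (c : K) (u : Fin 4 → K) : mon e.1 (c • u) = c ^ 2 * mon e.1 u := by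
  have he : e.1 0 + e.1 1 + e.1 2 + e.1 3 = 2 := by
    have h1 := e.2
    unfold Ex at h1
    rw [Finset.mem_filter] at h1
    exact h1.2.1
  unfold mon
  rw [Fin.prod_univ_four, Fin.prod_univ_four]
  simp only [Pi.smul_apply, smul_eq_mul, mul_pow]
  have h2 : c ^ 2 = c ^ e.1 0 * c ^ e.1 1 * c ^ e.1 2 * c ^ e.1 3 := by
    rw [← pow_add, ← pow_add, ← pow_add, he]
  rw [h2]
  ring

/-- the iterated double in Kummer coordinates -/
theorem dpw_kum (hDPB : DpbStatement) (f : K[X]) (h2 : (2 : K) ≠ 0) (hmon : f.Monic)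
    (hdeg : f.natDegree = 5) (hsq : Squarefree f) (A B : ℕ → K[X])
    (hsame : ∀ k, SameCl (MI f (A (2 * k)) (B (2 * k))) (MI f (A k) (B k) ^ 2)) (a : ℕ) :
    ∀ k : ℕ, (∀ b ≤ a, VG f (A (2 ^ b * k)) (B (2 ^ b * k))) →
      ∃ c : K, dpw f a (kum f (A k) (B k)) = c • kum f (A (2 ^ a * k)) (B (2 ^ a * k)) := by
  induction a with
  | zero =>
    intro k _
    refine ⟨1, ?_⟩
    rw [one_smul, pow_zero, one_mul]
    rfl
  | succ a ih =>
    intro k hk
    have hg0 : Good f (A k) (B k) := by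
      have h := (hk 0 (Nat.zero_le _)).1
      rwa [pow_zero, one_mul] at h
    have hg1 : Good f (A (2 * k)) (B (2 * k)) := by
      have h := (hk 1 (Nat.succ_le_succ (Nat.zero_le a))).1
      rwa [pow_one] at h
    obtain ⟨m, V, -, -, -, -, hd⟩ := hDPB K f (A k) (B k) (A (2 * k)) (B (2 * k)) h2 hmon hdeg hsq
      hg0 hg1.toMum hg1.two (hsame k)
    obtain ⟨c, hc⟩ := ih (2 * k) (by
      intro b hb
      have h := hk (b + 1) (Nat.succ_le_succ hb)
      rwa [pow_succ, mul_assoc] at h)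
    have hdd : dup f (kum f (A k) (B k)) = dup f (kum f (A k) (B k)) 0 •
        kum f (A (2 * k)) (B (2 * k)) := by
      funext l
      rw [Pi.smul_apply, smul_eq_mul]
      exact hd l
    refine ⟨(dup f (kum f (A k) (B k)) 0) ^ 4 ^ a * c, ?_⟩
    show dpw f a (dup f (kum f (A k) (B k))) = _
    have h3 : 2 ^ (a + 1) * k = 2 ^ a * (2 * k) := by rw [pow_succ, mul_assoc]
    rw [h3, hdd, dpw_smul, hc, smul_smul]
    congr 1
    rw [← hdd]

end Homog

theorem thin_mono {B B' : ℕ} (h : B ≤ B') {K : Type} [Field K] {f : K[X]} (hT : Thin B f) :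
    Thin B' f := by
  obtain ⟨F, h1, h2, φ, Y, h3, Γ, Ψ, h4, h5, h6, h7, h8⟩ := hT
  exact ⟨F, h1, h2, φ, Y, h3, Γ, Ψ, h4, h5, h6, h7.trans h, h8⟩

theorem num_core {h T₀ T' R Cc ε n0 d' d : ℝ} {i : ℕ} (hi : 1 ≤ i) (hε : 0 < ε)
    (hn0 : 40 / ε ≤ n0) (hh : 0 ≤ h) (hT' : T' ≤ 20 * h) (hR : R ≤ T₀ + T' / n0)
    (hmain : ε * h ≤ R) (hC : 0 ≤ Cc) (hd : d' ≤ d) (hd0 : 0 ≤ d)
    (hg : 36 / ε * i * 10 ^ i * T₀ ≤ 17 * i * 10 ^ i * h + Cc * d') : h ≤ Cc * d := by
  have hn : 0 < n0 := lt_of_lt_of_le (by positivity) hn0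
  have h1 : T' / n0 ≤ ε / 2 * h := by
    rw [div_le_iff₀ hn]
    have h3 : 1 ≤ ε / 40 * n0 := by
      have h4 := mul_le_mul_of_nonneg_left hn0 (by positivity : 0 ≤ ε / 40)
      have h5 : ε / 40 * (40 / ε) = 1 := by field_simp
      linarith
    have h6 : 20 * h * 1 ≤ 20 * h * (ε / 40 * n0) :=
      mul_le_mul_of_nonneg_left h3 (by positivity)
    nlinarith
  have h2 : ε / 2 * h ≤ T₀ := by linarith
  have hP : (1 : ℝ) ≤ i * 10 ^ i := by
    have h3 : (1 : ℝ) ≤ i := by exact_mod_cast hi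
    have h4 : (1 : ℝ) ≤ 10 ^ i := one_le_pow₀ (by norm_num)
    nlinarith
  set P : ℝ := i * 10 ^ i with hPdef
  have hg' : 36 / ε * P * T₀ ≤ 17 * P * h + Cc * d' := by
    rw [hPdef]
    have e1 : 36 / ε * (↑i * 10 ^ i) * T₀ = 36 / ε * i * 10 ^ i * T₀ := by ring
    have e2 : 17 * (↑i * 10 ^ i) * h = 17 * i * 10 ^ i * h := by ring
    rw [e1, e2]
    exact hg
  have h5 : 36 / ε * P * (ε / 2 * h) ≤ 36 / ε * P * T₀ :=
    mul_le_mul_of_nonneg_left h2 (by positivity)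
  have h6 : 36 / ε * P * (ε / 2 * h) = 18 * P * h := by
    field_simp
    ring
  have h7 : P * h ≤ Cc * d' := by linarith
  have h8 : h ≤ P * h := by nlinarith
  have h9 : Cc * d' ≤ Cc * d := mul_le_mul_of_nonneg_left hd hC
  linarith

theorem ksf (hGLS : GlsStatement) (hCNS : CnsStatement) (hMVP : MvpStatement)
    (hINS : InsStatement) (hEXC : ExcStatement) (hDPB : DpbStatement)
    (hLMN : Pool.Agent.KDT.LmnStatement) (hZERO : Pool.Agent.KDT.ZeroStatement)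
    (hPEL : PelStatement) (hREX : RexStatement) (hDSH : DshStatement) (hQVN : QvnStatement)
    (hGPR : GprStatement) (hDED : UBT.DedStmt) : KsfStatement := by
  intro d ε hε
  obtain ⟨n₀, hn₀⟩ := exists_nat_ge (40 / ε)
  have hn₀pos : 0 < n₀ := by
    rcases Nat.eq_zero_or_pos n₀ with h | h
    · rw [h, Nat.cast_zero] at hn₀
      exact absurd hn₀ (not_le.2 (by positivity))
    · exact h
  obtain ⟨i, hi, hgain⟩ := hCNS (36 / ε)
  obtain ⟨Cc, hCc, hgls⟩ := hGLS i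
  obtain ⟨C', hC'0, hexc⟩ := hEXC i
  obtain ⟨B₁, hB₁⟩ := hGPR d (Real.exp (20 * (Cc * d)))
  obtain ⟨B₂, hB₂⟩ := hZERO (lev i + ⌈C'⌉₊)
  set m₀ := n₀.factorial with hm₀
  have hm₀pos : 0 < m₀ := Nat.factorial_pos n₀
  refine ⟨max (m₀ * B₂) (max B₁ B₂), ?_⟩
  intro K _ _ hd Y hmon hdeg hint S hS hmain
  by_cases hThin : Thin (max (m₀ * B₂) (max B₁ B₂)) Y.f
  · exact Or.inr hThin
  refine Or.inl ?_
  intro c hc
  haveI hded : IsDedekindDomain (Q K Y.f) := hDED K Y.f two_ne_zero Y.sqfree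
  have hfin : IsOfFinOrder (c ^ m₀) := hc.pow
  set N := orderOf (c ^ m₀) with hNdef
  have hNpos : 0 < N := orderOf_pos_iff.2 hfin
  have hpow : (c ^ m₀) ^ N = 1 := pow_orderOf_eq_one _
  have hle : orderOf c ≤ m₀ * N := by
    apply Nat.le_of_dvd (Nat.mul_pos hm₀pos hNpos)
    apply orderOf_dvd_of_pow_eq_one
    rw [pow_mul]
    exact hpow
  -- the ideals
  have h2 : (2 : K) ≠ 0 := two_ne_zero
  obtain ⟨A₁, B₁', hI, hmum, _, hcl⟩ := hREX K Y.f h2 Y.sqfree hdeg c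
  have hclk : ∀ k : ℕ, ClassGroup.mk0 ((⟨MI Y.f A₁ B₁', hI⟩ :
      nonZeroDivisors (Ideal (Q K Y.f))) ^ k) = c ^ k := by
    intro k
    rw [map_pow, hcl]
  have hprin : ∀ k : ℕ, ((MI Y.f A₁ B₁') ^ k).IsPrincipal ↔ c ^ k = 1 := by
    intro k
    rw [← hclk k]
    exact (ClassGroup.mk0_eq_one_iff (I := (MI Y.f A₁ B₁') ^ k) (pow_mem hI k)).symm
  choose A B hA hAmum hAdeg hAcl using fun k : ℕ => hREX K Y.f h2 Y.sqfree hdeg (c ^ (m₀ * k))
  have hsame : ∀ k, SameCl (MI Y.f (A k) (B k)) ((MI Y.f A₁ B₁') ^ (m₀ * k)) := by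
    intro k
    have h3 := (hAcl k).trans (hclk (m₀ * k)).symm
    rw [ClassGroup.mk0_eq_mk0_iff] at h3
    obtain ⟨a, b, ha, hb, hab⟩ := h3
    exact ⟨a, b, ha, hb, hab⟩
  have hsame2 : ∀ k, SameCl (MI Y.f (A (2 * k)) (B (2 * k))) (MI Y.f (A k) (B k) ^ 2) := by
    intro k
    have h3 : ClassGroup.mk0 ((⟨MI Y.f (A k) (B k), hA k⟩ :
        nonZeroDivisors (Ideal (Q K Y.f))) ^ 2) = c ^ (m₀ * (2 * k)) := by
      rw [map_pow, hAcl k, ← pow_mul]
      congr 1
      ring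
    have h4 := (hAcl (2 * k)).trans h3.symm
    rw [ClassGroup.mk0_eq_mk0_iff] at h4
    obtain ⟨a, b, ha, hb, hab⟩ := h4
    exact ⟨a, b, ha, hb, hab⟩
  have hI0 : MI Y.f A₁ B₁' ≠ ⊥ := mem_nonZeroDivisors_iff_ne_zero.1 hI
  have hI0' : (MI Y.f A₁ B₁') ^ m₀ ≠ ⊥ := pow_ne_zero m₀ hI0
  have hprinN : ∀ j : ℕ, (((MI Y.f A₁ B₁') ^ m₀) ^ j).IsPrincipal ↔ N ∣ j := by
    intro j
    rw [← pow_mul, hprin, pow_mul, ← orderOf_dvd_iff_pow_eq_one]
  have hsameN : ∀ k, SameCl (MI Y.f (A k) (B k)) (((MI Y.f A₁ B₁') ^ m₀) ^ k) := by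
    intro k
    rw [← pow_mul]
    exact hsame k
  -- generators of the powers
  have hUW : ∀ k : ℕ, ∃ U W : K[X], Good Y.f (A k) (B k) →
      Gen Y.f (A k) (B k) U W (2 * N) := by
    intro k
    by_cases hg : Good Y.f (A k) (B k)
    · have h3 : ((MI Y.f (A k) (B k)) ^ (2 * N)).IsPrincipal := by
        have h4 : ClassGroup.mk0 ((⟨MI Y.f (A k) (B k), hA k⟩ :
            nonZeroDivisors (Ideal (Q K Y.f))) ^ (2 * N)) = 1 := by
          rw [map_pow, hAcl k, ← pow_mul]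
          have h5 : m₀ * k * (2 * N) = m₀ * N * (2 * k) := by ring
          rw [h5, pow_mul c (m₀ * N) (2 * k), pow_mul c m₀ N, hpow, one_pow]
        exact (ClassGroup.mk0_eq_one_iff (I := (MI Y.f (A k) (B k)) ^ (2 * N))
          (pow_mem (hA k) (2 * N))).1 h4
      obtain ⟨U, W, h5, h6, h7⟩ := hPEL K Y.f (A k) (B k) (2 * N) h2 Y.sqfree hdeg hg
        (by positivity) h3
      exact ⟨U, W, fun _ => ⟨by positivity, even_two_mul N, h5, h6, h7⟩⟩
    · exact ⟨0, 0, fun h => absurd h hg⟩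
  choose U W hGen using hUW
  obtain ⟨hD0, _, hh0, hnorm, hsum, _⟩ := hDSH K Y.f hmon hdeg Y.sqfree hint
  -- case distinction
  by_cases hdet : ∀ r : QI i → {k : ℕ // k < N ∧ ∀ a ≤ i, VG Y.f (A (2 ^ a * k)) (B (2 ^ a * k))},
      (Matrix.of fun (j q : QI i) => (fun (k : {k : ℕ // k < N ∧ ∀ a ≤ i,
        VG Y.f (A (2 ^ a * k)) (B (2 ^ a * k))}) (q : QI i) => ∏ a : Fin i, mon (q a).1
        (kum Y.f (A (2 ^ (a : ℕ) * k.1)) (B (2 ^ (a : ℕ) * k.1)))) (r j) q).det = 0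
  · -- case 2
    obtain ⟨c₀, hc₀, hsumc⟩ := hLMN K (QI i) {k : ℕ // k < N ∧ ∀ a ≤ i,
        VG Y.f (A (2 ^ a * k)) (B (2 ^ a * k))} (fun (k : {k : ℕ // k < N ∧ ∀ a ≤ i,
        VG Y.f (A (2 ^ a * k)) (B (2 ^ a * k))}) (q : QI i) => ∏ a : Fin i, mon (q a).1
        (kum Y.f (A (2 ^ (a : ℕ) * k.1)) (B (2 ^ (a : ℕ) * k.1)))) hdet
    obtain ⟨P, hPdeg, hPev⟩ := hMVP K Y.f i c₀
    obtain ⟨E, hE, φ, A', B', hm', hn', hne', hval'⟩ := hINS K Y.f i c₀ hmon hdeg Y.sqfree hc₀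
    have hzero := hB₂ K Y.f hmon hdeg Y.sqfree P (hPdeg.trans (Nat.le_add_right _ _))
      ⟨E, hE, φ, A', B', hm', hn', hne', by rw [hPev]; exact hval'⟩
      ((MI Y.f A₁ B₁') ^ m₀) N hI0' hNpos hprinN
    have hexc' := hexc K Y.f ((MI Y.f A₁ B₁') ^ m₀) N A B hmon hdeg Y.sqfree hI0' hNpos hprinN
      (fun k => ⟨hAmum k, hAdeg k, hsameN k⟩)
    have hsub : {j : ℕ | j < N ∧ ¬ ∃ A B : K[X], Mum Y.f A B ∧ A.natDegree = 2 ∧
        SameCl (MI Y.f A B) (((MI Y.f A₁ B₁') ^ m₀) ^ j) ∧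
        MvPolynomial.eval (kum Y.f A B) P = 0} ⊆
        {k : ℕ | k < N ∧ ¬ ∀ a ≤ i, VG Y.f (A (2 ^ a * k)) (B (2 ^ a * k))} := by
      rintro k ⟨hkN, hk⟩
      refine ⟨hkN, fun hall => hk ?_⟩
      have hg : Good Y.f (A k) (B k) := by
        have h := (hall 0 (Nat.zero_le _)).1
        rwa [pow_zero, one_mul] at h
      refine ⟨A k, B k, hAmum k, hg.two, hsameN k, ?_⟩
      show MvPolynomial.eval₂ (RingHom.id K) (kum Y.f (A k) (B k)) P = 0
      rw [hPev, Polynomial.map_id]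
      have h3 : ∀ a : Fin i, ∃ c : K, dpw Y.f a (kum Y.f (A k) (B k)) =
          c • kum Y.f (A (2 ^ (a : ℕ) * k)) (B (2 ^ (a : ℕ) * k)) := fun a =>
        dpw_kum hDPB Y.f h2 hmon hdeg Y.sqfree A B hsame2 a k
          (fun b hb => hall b (hb.trans a.2.le))
      choose Λ hΛ using h3
      have h4 : ∀ q : QI i, PQ Y.f i q (kum Y.f (A k) (B k)) = (∏ a : Fin i, Λ a ^ 2) *
          ∏ a : Fin i, mon (q a).1 (kum Y.f (A (2 ^ (a : ℕ) * k)) (B (2 ^ (a : ℕ) * k))) := by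
        intro q
        unfold PQ
        rw [← Finset.prod_mul_distrib]
        refine Finset.prod_congr rfl fun a _ => ?_
        rw [hΛ a, mon_smul]
      have h5 := hsumc ⟨k, hkN, hall⟩
      calc ∑ q, (RingHom.id K) (c₀ q) * PQ Y.f i q (kum Y.f (A k) (B k))
          = (∏ a : Fin i, Λ a ^ 2) * ∑ q, c₀ q * ∏ a : Fin i, mon (q a).1
              (kum Y.f (A (2 ^ (a : ℕ) * k)) (B (2 ^ (a : ℕ) * k))) := by
            rw [Finset.mul_sum]
            refine Finset.sum_congr rfl fun q _ => ?_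
            rw [h4 q, RingHom.id_apply]
            ring
        _ = 0 := by
            rw [h5, mul_zero]
    have hcard : (({j : ℕ | j < N ∧ ¬ ∃ A B : K[X], Mum Y.f A B ∧ A.natDegree = 2 ∧
        SameCl (MI Y.f A B) (((MI Y.f A₁ B₁') ^ m₀) ^ j) ∧
        MvPolynomial.eval (kum Y.f A B) P = 0}.ncard : ℕ) : ℝ) ≤
        ((lev i + ⌈C'⌉₊ : ℕ) : ℝ) * (Real.sqrt N + 1) := by
      have hfinite : {k : ℕ | k < N ∧ ¬ ∀ a ≤ i,
          VG Y.f (A (2 ^ a * k)) (B (2 ^ a * k))}.Finite :=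
        (Set.finite_lt_nat N).subset (fun k hk => hk.1)
      have h3 : ({j : ℕ | j < N ∧ ¬ ∃ A B : K[X], Mum Y.f A B ∧ A.natDegree = 2 ∧
          SameCl (MI Y.f A B) (((MI Y.f A₁ B₁') ^ m₀) ^ j) ∧
          MvPolynomial.eval (kum Y.f A B) P = 0}.ncard : ℝ) ≤
          ({k : ℕ | k < N ∧ ¬ ∀ a ≤ i,
            VG Y.f (A (2 ^ a * k)) (B (2 ^ a * k))}.ncard : ℝ) := by
        exact_mod_cast Set.ncard_le_ncard hsub hfinite
      have h4 : C' * (Real.sqrt N + 1) ≤ ((lev i + ⌈C'⌉₊ : ℕ) : ℝ) * (Real.sqrt N + 1) := by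
        refine mul_le_mul_of_nonneg_right ?_ (by positivity)
        have h5 := Nat.le_ceil C'
        push_cast
        have h6 : (0 : ℝ) ≤ (lev i : ℝ) := Nat.cast_nonneg _
        linarith
      exact h3.trans (hexc'.trans h4)
    rcases hzero hcard with h | h
    · exact (hle.trans (Nat.mul_le_mul_left m₀ h)).trans (le_max_left _ _)
    · exact absurd (thin_mono ((le_max_right _ _).trans (le_max_right _ _)) h) hThin
  · -- case 1
    refine le_trans ?_ ((le_max_left B₁ B₂).trans (le_max_right _ _))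
    push Not at hdet
    obtain ⟨r, hr⟩ := hdet
    have hglsK := hgls K Y.f m₀ n₀ (2 * N) (MI Y.f A₁ B₁') (fun j a => A (2 ^ a * (r j).1))
      (fun j a => B (2 ^ a * (r j).1)) (fun j a => U (2 ^ a * (r j).1))
      (fun j a => W (2 ^ a * (r j).1)) (fun j => (r j).1) (36 / ε * i * 10 ^ i) S hmon hdeg
      Y.sqfree hint hI0 (fun n h0 h1 => Nat.dvd_factorial h0 h1) hgain hS
      (fun j a ha => ⟨(r j).2.2 a ha, hGen _ ((r j).2.2 a ha).1, hsame _⟩) hr
    -- the valuations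
    have hl0 : ∀ v ∈ S, 0 < - Real.log (v (discr Y.f)) := by
      intro v hv
      have h3 : 0 < v (discr Y.f) := lt_of_le_of_ne (apply_nonneg v _)
        (Ne.symm ((map_ne_zero v).2 hD0))
      linarith [Real.log_neg h3 (hS v hv).2]
    have hval : ∀ v ∈ S, ∃ n : ℕ, 0 < n ∧
        v (discr Y.f) * (Ideal.absNorm v.maximalIdeal.asIdeal : ℝ) ^ n = 1 :=
      fun v hv => hQVN K v _ hD0 (hS v hv).2
    have hNv : ∀ v ∈ S, (1 : ℝ) ≤ (Ideal.absNorm v.maximalIdeal.asIdeal : ℝ) := by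
      intro v hv
      obtain ⟨n, hn, h3⟩ := hval v hv
      have h4 : Ideal.absNorm v.maximalIdeal.asIdeal ≠ 0 := by
        intro h5
        rw [h5, Nat.cast_zero, zero_pow hn.ne', mul_zero] at h3
        exact zero_ne_one h3
      exact_mod_cast Nat.one_le_iff_ne_zero.2 h4
    have hlog : ∀ v ∈ S, ∀ n : ℕ, 0 < n →
        v (discr Y.f) * (Ideal.absNorm v.maximalIdeal.asIdeal : ℝ) ^ n = 1 →
        - Real.log (v (discr Y.f)) = n * Real.log (Ideal.absNorm v.maximalIdeal.asIdeal) := by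
      intro v hv n hn h3
      have h4 : 0 < v (discr Y.f) := lt_of_le_of_ne (apply_nonneg v _)
        (Ne.symm ((map_ne_zero v).2 hD0))
      have h5 := congrArg Real.log h3
      have h6 : (0 : ℝ) < (Ideal.absNorm v.maximalIdeal.asIdeal : ℝ) :=
        lt_of_lt_of_le one_pos (hNv v hv)
      rw [Real.log_mul h4.ne' (pow_pos h6 n).ne', Real.log_pow, Real.log_one] at h5
      linarith
    classical
    have hR := Pool.Agent.SZT.H44.sum_R S (fun v => v (discr Y.f) *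
        (Ideal.absNorm v.maximalIdeal.asIdeal : ℝ) ^ n₀ < 1)
      (fun v => - Real.log (v (discr Y.f)))
      (fun v => Real.log (Ideal.absNorm v.maximalIdeal.asIdeal)) (n₀ : ℝ)
      (by
        intro v hv hP
        obtain ⟨n, hn, h3⟩ := hval v hv
        have h4 : n₀ < n := by
          by_contra h5
          have h6 := pow_le_pow_right₀ (hNv v hv) (not_lt.1 h5)
          have h7 := mul_le_mul_of_nonneg_left h6 (apply_nonneg v (discr Y.f))
          linarith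
        have h8 := hlog v hv n hn h3
        have h9 := Real.log_nonneg (hNv v hv)
        rw [le_div_iff₀ (by exact_mod_cast hn₀pos)]
        rw [h8]
        have h10 : (n₀ : ℝ) ≤ n := by exact_mod_cast h4.le
        nlinarith)
      (by
        intro v hv _
        obtain ⟨n, hn, h3⟩ := hval v hv
        have h8 := hlog v hv n hn h3
        have h9 := Real.log_nonneg (hNv v hv)
        have h10 : (1 : ℝ) ≤ n := by exact_mod_cast hn
        show Real.log (Ideal.absNorm v.maximalIdeal.asIdeal) ≤ - Real.log (v (discr Y.f))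
        rw [h8]
        nlinarith)
    have hT'T : ∑ v ∈ S with v (discr Y.f) *
        (Ideal.absNorm v.maximalIdeal.asIdeal : ℝ) ^ n₀ < 1, (- Real.log (v (discr Y.f))) ≤
        ∑ v ∈ S, (- Real.log (v (discr Y.f))) := by
      apply Finset.sum_le_sum_of_subset_of_nonneg (Finset.filter_subset _ _)
      intro v hv _
      exact (hl0 v hv).le
    have hT20 : ∑ v ∈ S, (- Real.log (v (discr Y.f))) ≤ 20 * lH Y.f := by
      rw [Finset.sum_neg_distrib]
      exact hsum S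
    have hsplit : ∑ v ∈ S, (- Real.log (v (discr Y.f))) - (∑ v ∈ S with v (discr Y.f) *
        (Ideal.absNorm v.maximalIdeal.asIdeal : ℝ) ^ n₀ < 1, (- Real.log (v (discr Y.f)))) =
        - ∑ v ∈ S with ¬ v (discr Y.f) *
        (Ideal.absNorm v.maximalIdeal.asIdeal : ℝ) ^ n₀ < 1, Real.log (v (discr Y.f)) := by
      rw [← Finset.sum_neg_distrib, ← Finset.sum_filter_add_sum_filter_not S
        (fun v => v (discr Y.f) * (Ideal.absNorm v.maximalIdeal.asIdeal : ℝ) ^ n₀ < 1)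
        (fun v => - Real.log (v (discr Y.f)))]
      ring
    have hbound : lH Y.f ≤ Cc * d := by
      refine num_core (i := i) (d' := Module.finrank ℚ K) hi hε hn₀ hh0 (hT'T.trans hT20)
        (hR.trans (le_of_eq ?_)) hmain hCc (by exact_mod_cast hd) (Nat.cast_nonneg d) hglsK
      rw [hsplit]
    refine hB₁ K hd Y hmon hdeg hint (hnorm.trans ?_) c hc
    exact Real.exp_le_exp.2 (by linarith)

end Pool.Agent.KDS.H71
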